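import Pool.Agent.N343.AS.Stm

/-!
# Project AS (helper343), task TOT (helper985): total of the digit terms of a level
-/

open Filter Topology MeasureTheory Finset

namespace Pool.Agent.N985.AS.TOT

open Pool.Agent.N343.AS

theorem Z_pos (N : ℕ) : 0 < Z N := by
  unfold Z
  positivity

theorem E_diff (N : ℕ) : E (N + 1) - E N = Q N + N + L N := by
  simp only [E, L]
  omega

theorem Z_step (N : ℕ) : (2 : ℝ) ^ (E (N + 1) - E N) * Z (N + 1) = Z N := by
  have h1 : E (N + 1) = E N + (E (N + 1) - E N) := by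
    simp only [E]
    omega
  unfold Z
  generalize E (N + 1) - E N = d at h1
  rw [h1, pow_add, mul_comm, mul_assoc, ← mul_pow]
  norm_num

theorem Q_ge (i : ℕ) : i + 2 ≤ Q i := by
  induction i with
  | zero => simp [Q]
  | succ i ih =>
    simp only [Q]
    omega

theorem Q_mono {i N : ℕ} (h : i ≤ N) : Q i ≤ Q N := by
  induction N, h using Nat.le_induction with
  | base => exact le_rfl
  | succ n _ ih =>
    simp only [Q]
    omega

theorem sh_le (i : ℕ) : sh i ≤ 1 := by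
  unfold sh
  rw [div_le_one (by positivity)]
  exact pow_le_pow_right₀ (by norm_num) (Q_ge i)

theorem sh_nonneg (i : ℕ) : 0 ≤ sh i := by
  unfold sh
  positivity

theorem cls_abs {N i : ℕ} (h : i ≤ N) (k : ℕ) : |cls N i k| ≤ 2 ^ N := by
  unfold cls
  rw [abs_mul]
  have h1 : |(if k % 2 = 0 then (1 : ℝ) else -1)| = 1 := by
    split_ifs <;> simp
  rw [h1, one_mul]
  have h2N : (1 : ℝ) ≤ 2 ^ N := one_le_pow₀ (by norm_num)
  split_ifs with h2 h3
  · rw [abs_of_nonneg (sh_nonneg i)]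
    exact (sh_le i).trans h2N
  · have h4 : ((k / 2 : ℕ) : ℝ) ≤ 2 ^ i := by exact_mod_cast h3.le
    rw [abs_of_nonneg (by positivity)]
    calc ((k / 2 : ℕ) : ℝ) * 2 ^ (N - i) ≤ 2 ^ i * 2 ^ (N - i) :=
          mul_le_mul_of_nonneg_right h4 (by positivity)
      _ = 2 ^ N := by
          rw [← pow_add]
          congr 1
          omega
  · simp

theorem pos : ∀ N t, 0 < cT N t := by
  intro N t
  rcases t with t | m
  · show 0 < ((U N t.1 : ℝ) + cls N t.1 t.2) * Z (N + 1)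
    refine mul_pos ?_ (Z_pos _)
    have hi : (t.1 : ℕ) ≤ N := Nat.lt_succ_iff.1 t.1.2
    have h1 := cls_abs hi t.2
    have h2 : (2 : ℝ) ^ N < (U N t.1 : ℝ) := by
      unfold U
      push_cast
      refine pow_lt_pow_right₀ (by norm_num) ?_
      simp only [L]
      omega
    have h3 := (abs_le.1 h1).1
    linarith
  · show 0 < (2 : ℝ) ^ (N + (m : ℕ)) * Z (N + 1)
    exact mul_pos (by positivity) (Z_pos _)

theorem cls_pairs (N i m : ℕ) : ∑ k ∈ range (2 * m), cls N i k = 0 := by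
  induction m with
  | zero => simp
  | succ m ih =>
    rw [show 2 * (m + 1) = 2 * m + 1 + 1 by ring, sum_range_succ, sum_range_succ, ih, zero_add]
    unfold cls
    have h1 : (2 * m) % 2 = 0 := by omega
    have h2 : (2 * m + 1) % 2 = 1 := by omega
    have h3 : (2 * m) / 2 = m := by omega
    have h4 : (2 * m + 1) / 2 = m := by omega
    rw [h1, h2, h3, h4, if_pos rfl, if_neg one_ne_zero]
    ring

theorem cls_sum (N i : ℕ) : ∑ k : Fin (2 ^ (i + 4) - 1), cls N i k = 0 := by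
  rw [Fin.sum_univ_eq_sum_range (fun k => cls N i k)]
  have h1 : 2 ^ (i + 4) - 1 = 2 * (2 ^ (i + 3) - 1) + 1 := by
    have : 2 ^ (i + 4) = 2 * 2 ^ (i + 3) := by rw [pow_succ, mul_comm]
    have h2 : 1 ≤ 2 ^ (i + 3) := Nat.one_le_two_pow
    omega
  rw [h1, sum_range_succ, cls_pairs, zero_add]
  unfold cls
  have h3 : 2 * (2 ^ (i + 3) - 1) / 2 = 2 ^ (i + 3) - 1 := by omega
  have h4 : 2 ^ i < 2 ^ (i + 3) - 1 := by
    have h5 : 2 ^ (i + 3) = 8 * 2 ^ i := by rw [pow_add]; ring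
    have h6 : 1 ≤ 2 ^ i := Nat.one_le_two_pow
    omega
  have h5 : ¬ (2 ^ (i + 3) - 1 = 0) := by
    intro h
    rw [h] at h4
    exact absurd h4 (Nat.not_lt_zero _)
  rw [h3, if_neg h5, if_neg (not_lt.2 h4.le), mul_zero]

/-- the weights -/
theorem U_zero (N : ℕ) : (2 : ℝ) ^ 4 * (U N 0 : ℝ) = 2 ^ (Q N + N + L N) := by
  unfold U
  push_cast
  rw [← pow_add]
  congr 1
  have := Q_mono (Nat.zero_le N)
  simp only [Q] at this ⊢
  omega

theorem U_succ {N n : ℕ} (h : n + 1 ≤ N) :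
    (2 : ℝ) ^ (n + 5) * (U N (n + 1) : ℝ) = (U N n : ℝ) := by
  unfold U
  push_cast
  rw [← pow_add]
  congr 1
  have h1 := Q_mono h
  have h2 : Q (n + 1) = Q n + (n + 5) := rfl
  omega

theorem tele (N n : ℕ) (h : n ≤ N) :
    ∑ i ∈ range (n + 1), ((2 : ℝ) ^ (i + 4) - 1) * (U N i : ℝ) =
      2 ^ (Q N + N + L N) - (U N n : ℝ) := by
  induction n with
  | zero =>
    rw [zero_add, sum_range_one, zero_add, ← U_zero]
    ring
  | succ n ih =>
    rw [sum_range_succ, ih (by omega), ← U_succ h]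
    ring

theorem U_last (N : ℕ) : (U N N : ℝ) = 2 ^ (N + L N) := by
  unfold U
  push_cast
  congr 1
  omega

theorem low (N n : ℕ) : ∑ m ∈ range n, (2 : ℝ) ^ (N + m) = 2 ^ (N + n) - 2 ^ N := by
  induction n with
  | zero => simp
  | succ n ih =>
    rw [sum_range_succ, ih, ← add_assoc, pow_succ]
    ring

theorem total (N : ℕ) :
    ∑ t, cT N t = ((2 : ℝ) ^ (E (N + 1) - E N) - 2 ^ N) * Z (N + 1) := by
  rw [Fintype.sum_sum_type, Fintype.sum_sigma]
  have h1 : ∀ i : Fin (N + 1), ∑ k : Fin (2 ^ ((i : ℕ) + 4) - 1), cT N (Sum.inl ⟨i, k⟩) =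
      ((2 : ℝ) ^ ((i : ℕ) + 4) - 1) * (U N i : ℝ) * Z (N + 1) := by
    intro i
    have h2 : ∀ k : Fin (2 ^ ((i : ℕ) + 4) - 1), cT N (Sum.inl ⟨i, k⟩) =
        ((U N i : ℝ) + cls N i k) * Z (N + 1) := fun k => rfl
    rw [Finset.sum_congr rfl fun k _ => h2 k, ← Finset.sum_mul, Finset.sum_add_distrib, cls_sum,
      add_zero, Finset.sum_const, Finset.card_univ, Fintype.card_fin, nsmul_eq_mul]
    have h3 : ((2 ^ ((i : ℕ) + 4) - 1 : ℕ) : ℝ) = (2 : ℝ) ^ ((i : ℕ) + 4) - 1 := by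
      rw [Nat.cast_sub Nat.one_le_two_pow]
      push_cast
      rfl
    rw [h3]
  rw [Finset.sum_congr rfl fun i _ => h1 i, ← Finset.sum_mul,
    Fin.sum_univ_eq_sum_range (fun i => ((2 : ℝ) ^ (i + 4) - 1) * (U N i : ℝ)), tele N N le_rfl,
    U_last]
  have h4 : ∀ m : Fin (L N), cT N (Sum.inr m) = (2 : ℝ) ^ (N + (m : ℕ)) * Z (N + 1) :=
    fun m => rfl
  rw [Finset.sum_congr rfl fun m _ => h4 m, ← Finset.sum_mul,
    Fin.sum_univ_eq_sum_range (fun m => (2 : ℝ) ^ (N + m)), low, E_diff]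
  ring

/-- TOT -/
theorem main : S_TOT := ⟨pos, total, Z_step⟩

end Pool.Agent.N985.AS.TOT
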